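import Mathlib
import Pool.Agent.Q154.BohrSingle

/-!
# No Bohr set in B + c + A_i for any single element c
-/

namespace Pool.Agent.Results.MP_c4e285_co.NoBohrSet

open Finset Filter Topology Q154.BohrSingle

/-- The Bohr set of a finite set of characters and a radius. -/
def bohr {G : Type*} [AddCommGroup G] (S : Finset (AddChar G Circle)) (η : ℝ) : Set G :=
  {g | ∀ χ ∈ S, ‖((χ g : Circle) : ℂ) - 1‖ < η}

open Classical in
/-- Folner sequences. -/
def IsFolner {G : Type*} [AddCommGroup G] (F : ℕ → Finset G) : Prop :=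
  (∀ n, (F n).Nonempty) ∧ ∀ g : G,
    Tendsto (fun n => ((symmDiff ((F n).image fun x => g + x) (F n)).card : ℝ) / (F n).card)
      atTop (𝓝 0)

/-- Upper Banach density. -/
noncomputable def upperBanach {G : Type*} [AddCommGroup G] (A : Set G) : ℝ :=
  sSup {d | ∃ F : ℕ → Finset G, IsFolner F ∧
    d = limsup (fun n => (((F n : Set G) ∩ A).ncard : ℝ) / (F n).card) atTop}

theorem ratio_le {G : Type*} [AddCommGroup G] (A : Set G) (F : Finset G) :
    (((F : Set G) ∩ A).ncard : ℝ) / F.card ≤ 1 := by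
  apply div_le_one_of_le₀ _ (Nat.cast_nonneg _)
  have h1 : ((F : Set G) ∩ A).ncard ≤ (F : Set G).ncard :=
    Set.ncard_le_ncard Set.inter_subset_left F.finite_toSet
  rw [Set.ncard_coe_finset] at h1
  exact_mod_cast h1

theorem ratio_nonneg {G : Type*} [AddCommGroup G] (A : Set G) (F : Finset G) :
    0 ≤ (((F : Set G) ∩ A).ncard : ℝ) / F.card := by positivity

theorem le_upperBanach {G : Type*} [AddCommGroup G] (A : Set G) (F : ℕ → Finset G)
    (hF : IsFolner F) (δ : ℝ)
    (h : ∃ᶠ n in atTop, δ ≤ (((F n : Set G) ∩ A).ncard : ℝ) / (F n).card) :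
    δ ≤ upperBanach A := by
  have h1 : δ ≤ limsup (fun n => (((F n : Set G) ∩ A).ncard : ℝ) / (F n).card) atTop := by
    exact le_limsup_of_frequently_le h
      ⟨1, Filter.eventually_map.2 (Eventually.of_forall fun n => ratio_le A (F n))⟩
  refine h1.trans (le_csSup ⟨1, ?_⟩ ⟨F, hF, rfl⟩)
  rintro d ⟨F', -, rfl⟩
  apply limsup_le_of_le
  · exact ⟨0, fun a ha => by
      obtain ⟨n, hn⟩ := (Filter.eventually_map.1 ha).exists
      exact (ratio_nonneg A (F' n)).trans hn⟩
  · exact Eventually.of_forall fun n => ratio_le A (F' n)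

/-- The indicator word of a finite set. -/
noncomputable def u (T : Finset ℕ) : V2 :=
  Finsupp.onFinset T (fun i => if i ∈ T then 1 else 0) (by
    intro i hi
    by_contra h
    simp [h] at hi)

theorem u_apply (T : Finset ℕ) (i : ℕ) : u T i = if i ∈ T then 1 else 0 := rfl

theorem u_symmDiff (U U' : Finset ℕ) : u (symmDiff U U') = u U + u U' := by
  ext i
  rw [Finsupp.add_apply, u_apply, u_apply, u_apply]
  by_cases h1 : i ∈ U <;> by_cases h2 : i ∈ U' <;> simp [Finset.mem_symmDiff, h1, h2]
  rfl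

theorem char_sq (χ : AddChar V2 Circle) (x : V2) : χ x * χ x = 1 := by
  rw [← AddChar.map_add_eq_mul, add_self', AddChar.map_zero_eq_one]

theorem char_cases (χ : AddChar V2 Circle) (x y : V2) (h : χ x = 1 ↔ χ y = 1) : χ x = χ y := by
  have key : ∀ z : V2, χ z = 1 ∨ ((χ z : Circle) : ℂ) = -1 := by
    intro z
    have h1 : ((χ z : Circle) : ℂ) * (χ z : Circle) = 1 := by
      rw [← Circle.coe_mul, char_sq, Circle.coe_one]
    rcases mul_self_eq_one_iff.1 h1 with h2 | h2
    · left; exact Circle.coe_injective (by rw [h2, Circle.coe_one])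
    · right; exact h2
  rcases key x with h1 | h1
  · rw [h1, h.1 h1]
  · rcases key y with h2 | h2
    · rw [h2, h.2 h2]
    · exact Circle.coe_injective (by rw [h1, h2])

/-- Every finite set of characters is trivial on a word that is nearly all ones on `I`. -/
theorem near_ones (S : Finset (AddChar V2 Circle)) (I : Finset ℕ) :
    ∃ w : V2, (∀ i, i ∉ I → w i = 0) ∧ (I.filter fun i => w i = 0).card ≤ S.card ∧
      ∀ χ ∈ S, χ w = 1 := by
  classical
  set P : Finset (Finset ℕ) := I.powerset.filter fun T => ∀ χ ∈ S, χ (u T) = χ (u I) with hP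
  have hne : P.Nonempty := ⟨I, by rw [hP, Finset.mem_filter]; simp⟩
  obtain ⟨T, hT, hmin⟩ := Finset.exists_min_image P Finset.card hne
  rw [hP, Finset.mem_filter, Finset.mem_powerset] at hT
  have hTS : T.card ≤ S.card := by
    by_contra hlt
    push Not at hlt
    have h1 : S.powerset.card < T.powerset.card := by
      rw [Finset.card_powerset, Finset.card_powerset]
      exact Nat.pow_lt_pow_right (by norm_num) hlt
    obtain ⟨U, hU, U', hU', hne', hUU⟩ := Finset.exists_ne_map_eq_of_card_lt_of_maps_to h1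
      (f := fun U => S.filter fun χ => χ (u U) = 1)
      (fun U _ => Finset.mem_coe.2 (Finset.mem_powerset.2 (Finset.filter_subset _ _)))
    rw [Finset.mem_powerset] at hU hU'
    have hD : (symmDiff U U').Nonempty := by
      rw [Finset.nonempty_iff_ne_empty]
      intro h
      exact hne' (symmDiff_eq_bot.1 h)
    have hDT : symmDiff U U' ⊆ T := by
      intro i hi
      rw [Finset.mem_symmDiff] at hi
      rcases hi with hi | hi
      · exact hU hi.1
      · exact hU' hi.1
    have hχ : ∀ χ ∈ S, χ (u (symmDiff U U')) = 1 := by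
      intro χ hχ
      have h2 : χ (u U) = χ (u U') := by
        apply char_cases
        have := Finset.ext_iff.1 hUU χ
        simpa only [Finset.mem_filter, hχ, true_and] using this
      rw [u_symmDiff, AddChar.map_add_eq_mul, h2, char_sq]
    have hsd : symmDiff T (symmDiff U U') = T \ symmDiff U U' := by
      rw [symmDiff_comm]
      exact symmDiff_of_le hDT
    have hT' : T \ symmDiff U U' ∈ P := by
      rw [hP, Finset.mem_filter, Finset.mem_powerset]
      refine ⟨Finset.sdiff_subset.trans hT.1, fun χ hχS => ?_⟩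
      rw [← hsd, u_symmDiff, AddChar.map_add_eq_mul, hχ χ hχS, mul_one, hT.2 χ hχS]
    have h3 := hmin _ hT'
    have h4 : (T \ symmDiff U U').card < T.card := by
      apply Finset.card_lt_card
      rw [Finset.ssubset_iff_of_subset Finset.sdiff_subset]
      obtain ⟨i, hi⟩ := hD
      exact ⟨i, hDT hi, fun h => (Finset.mem_sdiff.1 h).2 hi⟩
    omega
  have hsd : symmDiff I T = I \ T := by
    rw [symmDiff_comm]
    exact symmDiff_of_le hT.1
  refine ⟨u (I \ T), ?_, ?_, ?_⟩
  · intro i hi
    rw [u_apply, if_neg (fun h => hi (Finset.mem_sdiff.1 h).1)]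
  · have h1 : (I.filter fun i => u (I \ T) i = 0) ⊆ T := by
      intro i hi
      rw [Finset.mem_filter, u_apply] at hi
      by_contra h
      rw [if_pos (Finset.mem_sdiff.2 ⟨hi.1, h⟩)] at hi
      exact absurd hi.2 (by decide)
    exact (Finset.card_le_card h1).trans hTS
  · intro χ hχ
    rw [← hsd, u_symmDiff, AddChar.map_add_eq_mul, hT.2 χ hχ, char_sq]

theorem le_N (k : ℕ) : k ≤ N nn k := by
  induction k with
  | zero => exact Nat.zero_le _
  | succ k ih =>
    have e : N nn (k + 1) = N nn k + nn k + nn k := rfl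
    have := nn_large k
    omega

theorem exists_bound (g : V2) : ∃ M, ∀ i, M ≤ i → g i = 0 := by
  refine ⟨g.support.sup id + 1, fun i hi => ?_⟩
  by_contra h
  have := Finset.le_sup (f := id) (Finsupp.mem_support_iff.2 h)
  simp only [id] at this
  omega

/-- Every element of the group is listed infinitely often. -/
theorem exists_list : ∃ c : ℕ → V2, (∀ k i, N nn k ≤ i → c k i = 0) ∧
    ∀ g : V2, ∀ m, ∃ k, m ≤ k ∧ c k = g := by
  classical
  obtain ⟨e, he⟩ := exists_surjective_nat V2
  refine ⟨fun k => if e (Nat.unpair k).1 ∈ H (N nn k) then e (Nat.unpair k).1 else 0, ?_, ?_⟩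
  · intro k i hi
    simp only
    split_ifs with h
    · exact mem_H.1 h i hi
    · rfl
  · intro g m
    obtain ⟨j, rfl⟩ := he g
    obtain ⟨M, hM⟩ := exists_bound (e j)
    refine ⟨Nat.pair j (max m M), (le_max_left m M).trans (Nat.right_le_pair _ _), ?_⟩
    simp only
    rw [Nat.unpair_pair]
    simp only
    rw [if_pos]
    rw [mem_H]
    intro i hi
    apply hM
    exact ((le_max_right m M).trans (Nat.right_le_pair j _)).trans ((le_N _).trans hi)

theorem isFolner_H : IsFolner (fun k => H (N nn k)) := by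
  classical
  constructor
  · intro n
    exact ⟨0, mem_H.2 fun i _ => rfl⟩
  · intro g
    obtain ⟨M, hM⟩ := exists_bound g
    apply tendsto_const_nhds.congr'
    filter_upwards [eventually_ge_atTop M] with n hn
    have hg : g ∈ H (N nn n) := mem_H.2 fun i hi => hM i (hn.trans ((le_N n).trans hi))
    have h1 : ∀ inst : DecidableEq V2,
        @Finset.image _ _ inst (fun x => g + x) (H (N nn n)) = H (N nn n) := by
      intro inst
      ext x
      rw [Finset.mem_image]
      constructor
      · rintro ⟨y, hy, rfl⟩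
        rw [mem_H] at hy hg ⊢
        intro i hi
        rw [Finsupp.add_apply, hg i hi, hy i hi, add_zero]
      · intro hx
        refine ⟨g + x, ?_, by rw [← add_assoc, add_self', zero_add]⟩
        rw [mem_H] at hx hg ⊢
        intro i hi
        rw [Finsupp.add_apply, hg i hi, hx i hi, add_zero]
    have h2 : ∀ (inst : DecidableEq V2) (X : Finset V2), symmDiff X X = ∅ := by
      intro inst X
      exact symmDiff_self X
    rw [h1, h2]
    simp

/-- There are a countable abelian group `G`, a set `B` of positive upper Banach density and a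
partition of `G` into two sets such that, for no element `c` of `G` and no part `A i`, the set
`B + c + A i` contains a Bohr set, or even a translate of a Bohr set. -/
theorem result : ∃ (G : Type) (_ : AddCommGroup G) (B C : Set G) (A : Fin 2 → Set G),
    Countable G ∧ 0 < upperBanach B ∧ C = Set.univ ∧ 0 < upperBanach C ∧
    (∀ i j, i ≠ j → Disjoint (A i) (A j)) ∧ (⋃ i, A i) = Set.univ ∧
    ∀ c ∈ C, ∀ i : Fin 2, ∀ (t : G) (S : Finset (AddChar G Circle)) (η : ℝ), 0 < η →
      ¬ ({x | x - t ∈ bohr S η} ⊆ {x | ∃ b ∈ B, ∃ a ∈ A i, x = b + c + a}) := by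
  classical
  obtain ⟨c, hc, hlist⟩ := exists_list
  -- the popular colour
  have hpig : ∀ K, ∃ ψ : ZMod 2 × ZMod 2, (2 : ℝ) ^ (N nn K) / 8 ≤
      (((H (N nn K)).filter fun x => Good nn c K x ∧ Phi nn c K x = ψ).card : ℝ) := by
    intro K
    have h1 := bad_count hc K (N nn K) le_rfl
    have h2 : (((H (N nn K)).filter fun x => Good nn c K x).card : ℝ) +
        ((H (N nn K)).filter fun x => ¬ Good nn c K x).card = 2 ^ (N nn K) := by
      have := Finset.card_filter_add_card_filter_not (s := H (N nn K)) (fun x => Good nn c K x)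
      rw [card_H] at this
      exact_mod_cast this
    have h3 : (0 : ℝ) < 1 / 2 ^ (K + 1) := by positivity
    have h4 : (0 : ℝ) < 2 ^ (N nn K) := by positivity
    have h5 : (2 : ℝ) ^ (N nn K) / 2 ≤ ((H (N nn K)).filter fun x => Good nn c K x).card := by
      nlinarith
    obtain ⟨ψ, -, hψ⟩ := Finset.exists_le_card_fiber_of_nsmul_le_card_of_maps_to
      (s := (H (N nn K)).filter fun x => Good nn c K x)
      (t := (Finset.univ : Finset (ZMod 2 × ZMod 2))) (f := fun x => Phi nn c K x)
      (b := (2 : ℝ) ^ (N nn K) / 8) (fun _ _ => Finset.mem_univ _) Finset.univ_nonempty (by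
        have : (Finset.univ : Finset (ZMod 2 × ZMod 2)).card = 4 := rfl
        rw [this, nsmul_eq_mul]
        push_cast
        linarith)
    refine ⟨ψ, ?_⟩
    rw [Finset.filter_filter] at hψ
    exact hψ
  obtain ⟨ψ, hψ⟩ : ∃ ψ : ZMod 2 × ZMod 2, ∃ᶠ K in atTop, (2 : ℝ) ^ (N nn K) / 8 ≤
      (((H (N nn K)).filter fun x => Good nn c K x ∧ Phi nn c K x = ψ).card : ℝ) := by
    by_contra hcon
    push Not at hcon
    have h1 : ∀ ψ : ZMod 2 × ZMod 2, ∀ᶠ K in atTop, ¬ ((2 : ℝ) ^ (N nn K) / 8 ≤
      (((H (N nn K)).filter fun x => Good nn c K x ∧ Phi nn c K x = ψ).card : ℝ)) :=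
      fun ψ => (hcon ψ).mono fun K hK => not_le.2 hK
    obtain ⟨K, hK⟩ := (Filter.eventually_all.2 h1).exists
    obtain ⟨ψ, hψ⟩ := hpig K
    exact hK ψ hψ
  set B : Set V2 := {x | ∃ K, x ∈ H (N nn K) ∧ Good nn c K x ∧ Phi nn c K x = ψ} with hB
  set A0 : Set V2 := {x | ∃ K, x ∈ H (N nn K) ∧ Phi nn c K x = ψ + (1, 0)} with hA0
  have hNm := N_mono nn
  have hHmono : ∀ {K L : ℕ} {x : V2}, K ≤ L → x ∈ H (N nn K) → x ∈ H (N nn L) := by
    intro K L x hKL hx
    rw [mem_H] at hx ⊢
    exact fun i hi => hx i ((hNm hKL).trans hi)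
  -- elements of `B` at all high levels
  have hBhigh : ∀ b ∈ B, ∃ K, ∀ L, K ≤ L → b ∈ H (N nn L) ∧ Good nn c L b ∧ Phi nn c L b = ψ := by
    rintro b ⟨K, h1, h2, h3⟩
    refine ⟨K, fun L hL => ?_⟩
    obtain ⟨h4, h5⟩ := stable nn_large K b (mem_H.1 h1) L hL
    exact ⟨hHmono hL h1, h5.2 h2, h4.trans h3⟩
  have hsupp : ∀ (k : ℕ) (w : V2) (L : ℕ), k < L →
      (∀ i, i ∉ I nn k → w i = 0) ∨ (∀ i, i ∉ J nn k → w i = 0) → c k + w ∈ H (N nn L) := by
    intro k w L hkL hw
    rw [mem_H]
    intro i hi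
    have h1 := (hNm (Nat.succ_le_of_lt hkL)).trans hi
    have e : N nn (k + 1) = N nn k + nn k + nn k := rfl
    rw [Nat.succ_eq_add_one, e] at h1
    rw [Finsupp.add_apply, hc k i (by omega)]
    rcases hw with hw | hw
    · rw [hw i (by rw [I, Finset.mem_Ico]; omega), add_zero]
    · rw [hw i (by rw [J, Finset.mem_Ico]; omega), add_zero]
  have hadd : ∀ {L : ℕ} {x y : V2}, x ∈ H (N nn L) → y ∈ H (N nn L) → x + y ∈ H (N nn L) := by
    intro L x y hx hy
    rw [mem_H] at hx hy ⊢
    intro i hi
    rw [Finsupp.add_apply, hx i hi, hy i hi, add_zero]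
  have hpart1 : ∀ (k : ℕ) (w : V2), (∀ i, i ∉ I nn k → w i = 0) →
      ((I nn k).filter fun i => w i = 0).card ≤ k → ∀ b ∈ B, b + (c k + w) ∈ A0 := by
    intro k w hw1 hw2 b hb
    obtain ⟨K, hK⟩ := hBhigh b hb
    obtain ⟨h1, h2, h3⟩ := hK (max K (k + 1)) (le_max_left _ _)
    have hk : k < max K (k + 1) := lt_of_lt_of_le (Nat.lt_succ_self k) (le_max_right _ _)
    refine ⟨max K (k + 1), hadd h1 (hsupp k w _ hk (Or.inl hw1)), ?_⟩
    rw [shift1 hc k w hw1 hw2 _ hk b h2, h3]
  have hpart2 : ∀ (k : ℕ) (w : V2), (∀ i, i ∉ J nn k → w i = 0) →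
      ((J nn k).filter fun i => w i = 0).card ≤ k → ∀ b ∈ B, b + (c k + w) ∉ A0 := by
    rintro k w hw1 hw2 b hb ⟨K', h4, h5⟩
    obtain ⟨K, hK⟩ := hBhigh b hb
    obtain ⟨h1, h2, h3⟩ := hK (max (max K (k + 1)) K') ((le_max_left _ _).trans (le_max_left _ _))
    have hk : k < max (max K (k + 1)) K' :=
      lt_of_lt_of_le (Nat.lt_succ_self k) ((le_max_right _ _).trans (le_max_left _ _))
    have h6 := shift2 hc k w hw1 hw2 _ hk b h2
    rw [h3, (stable nn_large K' _ (mem_H.1 h4) _ (le_max_right _ _)).1, h5] at h6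
    have h7 : ((1 : ZMod 2), (0 : ZMod 2)) = (0, 1) := add_left_cancel h6
    exact absurd h7 (by decide)
  refine ⟨V2, inferInstance, B, Set.univ, ![A0, A0ᶜ], inferInstance, ?_, rfl, ?_, ?_, ?_, ?_⟩
  · have h1 : (1 : ℝ) / 8 ≤ upperBanach B := by
      apply le_upperBanach B _ isFolner_H
      refine hψ.mono fun K hK => ?_
      rw [card_H, le_div_iff₀ (by positivity)]
      have h2 : ((H (N nn K)).filter fun x => Good nn c K x ∧ Phi nn c K x = ψ).card ≤
          ((H (N nn K) : Set V2) ∩ B).ncard := by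
        rw [← Set.ncard_coe_finset]
        apply Set.ncard_le_ncard _ ((H (N nn K)).finite_toSet.subset Set.inter_subset_left)
        intro x hx
        rw [Finset.mem_coe, Finset.mem_filter] at hx
        exact ⟨hx.1, K, hx.1, hx.2⟩
      have h3 : (((H (N nn K)).filter fun x => Good nn c K x ∧ Phi nn c K x = ψ).card : ℝ) ≤
          ((H (N nn K) : Set V2) ∩ B).ncard := by exact_mod_cast h2
      push_cast
      linarith
    linarith
  · have h1 : (1 : ℝ) ≤ upperBanach (Set.univ : Set V2) := by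
      apply le_upperBanach _ _ isFolner_H
      apply Filter.Frequently.of_forall
      intro K
      rw [Set.inter_univ, Set.ncard_coe_finset, div_self]
      rw [card_H]; positivity
    linarith
  · intro i j hij
    fin_cases i <;> fin_cases j
    · exact absurd rfl hij
    · exact disjoint_compl_right
    · exact disjoint_compl_left
    · exact absurd rfl hij
  · rw [Set.eq_univ_iff_forall]
    intro x
    rw [Set.mem_iUnion]
    by_cases hx : x ∈ A0
    · exact ⟨0, hx⟩
    · exact ⟨1, hx⟩
  · intro g _ i t S η hη hsub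
    obtain ⟨k, hk, hck⟩ := hlist (g + t) S.card
    have hneg : ∀ x : V2, -x = x := fun x => by
      rw [neg_eq_iff_add_eq_zero]; exact add_self' x
    have hkey : ∀ w : V2, (∀ χ ∈ S, χ w = 1) →
        ∃ b ∈ B, b + (c k + w) ∈ (![A0, A0ᶜ] : Fin 2 → Set V2) i := by
      intro w hw
      have h1 : w + t ∈ {x | x - t ∈ bohr S η} := by
        show w + t - t ∈ bohr S η
        rw [add_sub_cancel_right]
        intro χ hχ
        rw [hw χ hχ, Circle.coe_one, sub_self, norm_zero]
        exact hη
      obtain ⟨b, hb, a, ha, hab⟩ := hsub h1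
      refine ⟨b, hb, ?_⟩
      have h2 : b + (c k + w) = a := by
        rw [hck]
        have h3 : a = w + t - (b + g) := by rw [hab]; abel
        rw [h3, sub_eq_add_neg, hneg]
        abel
      rw [h2]; exact ha
    fin_cases i
    · obtain ⟨w, hw1, hw2, hw3⟩ := near_ones S (J nn k)
      obtain ⟨b, hb, hb2⟩ := hkey w hw3
      exact hpart2 k w hw1 (hw2.trans hk) b hb hb2
    · obtain ⟨w, hw1, hw2, hw3⟩ := near_ones S (I nn k)
      obtain ⟨b, hb, hb2⟩ := hkey w hw3
      exact hb2 (hpart1 k w hw1 (hw2.trans hk) b hb)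

end Pool.Agent.Results.MP_c4e285_co.NoBohrSet
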